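import Mathlib

/-!
# Squares of small non-null sets and naive Haar nullness

For the group `G = ℝ`, a set `S ⊆ G` with `|S| = non(N)` such that `S × S` is not naively Haar null
in `G × G` exists if and only if `non(N) = 𝔠`.  In fact `S × S` is naively Haar null in `ℝ × ℝ`
whenever `|S| < 𝔠`: for all but `|S|` many slopes `c` every translate of `S × S` meets the line
`y = c x` in at most one point, so the length measure on a segment of this line is a witness.
Conversely, if `non(N) = 𝔠` then `S = G` works for every group `G`.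
-/

set_option autoImplicit false

open Set MeasureTheory Cardinal

namespace Pool.Agent.Results.MP_547692_lc.IffNonNullContinuum

/-- A subset `X` of a group `H` is naively Haar null if there is a Borel probability measure `μ` on
`H` such that all the sets `g X h` have outer `μ`-measure zero (that is, measure zero for the
completion of `μ`). -/
def NaivelyHaarNull {H : Type} [Group H] [MeasurableSpace H] (X : Set H) : Prop :=
  ∃ μ : Measure H, IsProbabilityMeasure μ ∧ ∀ g h : H, μ ((fun x => g * x * h) '' X) = 0

/-- A subset `X` of an additive group `H` is naively Haar null if there is a Borel probability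
measure `μ` on `H` such that all the sets `g + X + h` have outer `μ`-measure zero. -/
def AddNaivelyHaarNull {H : Type} [AddGroup H] [MeasurableSpace H] (X : Set H) : Prop :=
  ∃ μ : Measure H, IsProbabilityMeasure μ ∧ ∀ g h : H, μ ((fun x => g + x + h) '' X) = 0

/-- The least cardinality of a `μ`-positive set. -/
noncomputable def non {G : Type} [MeasurableSpace G] (μ : Measure G) : Cardinal :=
  sInf {κ | ∃ S : Set G, #S = κ ∧ μ S ≠ 0}

theorem small_square (S : Set ℝ) (hS : #S < 𝔠) : AddNaivelyHaarNull (S ×ˢ S) := by
  classical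
  -- the forbidden slopes
  let F : Set ℝ := range fun p : (S × S) × (S × S) =>
    ((p.1.1 : ℝ) - p.1.2) / ((p.2.1 : ℝ) - p.2.2)
  have hF : #F < 𝔠 := by
    refine lt_of_le_of_lt mk_range_le ?_
    rcases lt_or_ge (#S) ℵ₀ with h | h
    · have : #((S × S) × (S × S)) < ℵ₀ := by
        simp only [mk_prod, lift_id]
        exact mul_lt_aleph0 (mul_lt_aleph0 h h) (mul_lt_aleph0 h h)
      exact this.trans (aleph0_lt_continuum)
    · have : #((S × S) × (S × S)) = #S := by
        simp only [mk_prod, lift_id]
        rw [mul_eq_self h, mul_eq_self h]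
      rw [this]
      exact hS
  obtain ⟨c, hc⟩ : ∃ c, c ∉ F := by
    by_contra hcon
    push Not at hcon
    have h1 : F = Set.univ := eq_univ_of_forall hcon
    rw [h1, mk_univ, mk_real] at hF
    exact lt_irrefl _ hF
  let φ : ℝ → ℝ × ℝ := fun x => (x, c * x)
  have hφc : Continuous φ := continuous_id.prodMk (continuous_const.mul continuous_id)
  have hφi : Function.Injective φ := fun x y h => congrArg Prod.fst h
  have hφ : MeasurableEmbedding φ := hφc.measurableEmbedding hφi
  let ν : Measure ℝ := volume.restrict (Icc 0 1)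
  have hν : IsProbabilityMeasure ν := ⟨by simp [ν]⟩
  refine ⟨ν.map φ, Measure.isProbabilityMeasure_map hφc.aemeasurable, fun g h => ?_⟩
  rw [hφ.map_apply]
  have hsub : (φ ⁻¹' ((fun x => g + x + h) '' S ×ˢ S)).Subsingleton := by
    rintro x ⟨⟨s, t⟩, ⟨hs, ht⟩, hx⟩ y ⟨⟨s', t'⟩, ⟨hs', ht'⟩, hy⟩
    simp only [φ, Prod.ext_iff, Prod.fst_add, Prod.snd_add] at hx hy hs ht hs' ht'
    by_contra hne
    apply hc
    refine ⟨((⟨t, ht⟩, ⟨t', ht'⟩), (⟨s, hs⟩, ⟨s', hs'⟩)), ?_⟩
    have h1 : s - s' = x - y := by linarith [hx.1, hy.1]
    have h2 : t - t' = c * (x - y) := by linarith [hx.2, hy.2]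
    have h3 : x - y ≠ 0 := sub_ne_zero.2 hne
    change (t - t') / (s - s') = c
    rw [h1, h2]
    field_simp
  exact hsub.measure_zero ν

/-- (1) If `G` is an uncountable locally compact Polish group with Haar measure `μ` and the least
cardinality `non μ` of a `μ`-positive set is `𝔠` then there is `S ⊆ G` with `|S| = non μ` such that
`S × S` is not naively Haar null in `G × G`.

(2) If `S ⊆ ℝ` has fewer than `𝔠` elements then `S × S` is naively Haar null in `ℝ × ℝ`.

(3) For `G = ℝ`, there is `S ⊆ G` with `|S| = non(N)` such that `S × S` is not naively Haar null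
in `G × G` if and only if `non(N) = 𝔠`. -/
theorem result :
    (∀ (G : Type) [Group G] [TopologicalSpace G] [IsTopologicalGroup G] [PolishSpace G]
      [LocallyCompactSpace G] [Uncountable G] [MeasurableSpace G] [BorelSpace G]
      (μ : Measure G) [μ.IsHaarMeasure], non μ = 𝔠 →
        ∃ S : Set G, #S = non μ ∧ ¬ NaivelyHaarNull (S ×ˢ S)) ∧
    (∀ S : Set ℝ, #S < 𝔠 → AddNaivelyHaarNull (S ×ˢ S)) ∧
    ((∃ S : Set ℝ, #S = non (volume : Measure ℝ) ∧ ¬ AddNaivelyHaarNull (S ×ˢ S)) ↔
      non (volume : Measure ℝ) = 𝔠) := by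
  refine ⟨?_, small_square, ?_, ?_⟩
  · intro G _ _ _ _ _ _ _ _ μ _ hμ
    refine ⟨Set.univ, ?_, ?_⟩
    · rw [mk_univ, hμ]
      exact (PolishSpace.measurableEquivOfNotCountable (α := G) (β := ℝ) (by
        rw [not_countable_iff]; infer_instance) (by
        rw [not_countable_iff]; infer_instance)).toEquiv.cardinal_eq.trans mk_real
    · rintro ⟨ν, hν, h⟩
      have := h 1 1
      simp only [one_mul, mul_one, image_id', univ_prod_univ] at this
      rw [measure_univ] at this
      exact one_ne_zero this
  · rintro ⟨S, hS, hS2⟩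
    have h1 : non (volume : Measure ℝ) ≤ 𝔠 := by
      rw [← hS]
      exact (mk_set_le S).trans mk_real.le
    refine le_antisymm h1 ?_
    by_contra hcon
    rw [not_le, ← hS] at hcon
    exact hS2 (small_square S hcon)
  · intro h
    refine ⟨Set.univ, ?_, ?_⟩
    · rw [mk_univ, h, mk_real]
    · rintro ⟨ν, hν, h⟩
      have := h 0 0
      simp only [zero_add, add_zero, image_id', univ_prod_univ] at this
      rw [measure_univ] at this
      exact one_ne_zero this

end Pool.Agent.Results.MP_547692_lc.IffNonNullContinuum
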